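import Pool.Agent.H99.TJ.Ex2

open scoped ContDiff

/-! # The printed index order

Here `∇` and `R` are taken with the index order printed in the problem file,
`∇_l V^i = ∂_l V^i + α^i_{jl} V^j`. -/

namespace Pool.Agent.Results.MP_7f6920_mp.PrintedOrder

open Pool.Agent.H99.TJ.Coord

section Defs

variable {𝕜 : Type} [RCLike 𝕜] {N : ℕ}

/-- The printed curvature `R^i_{jkl} = ∂_k α^i_{jl} - ∂_l α^i_{jk} + α^i_{sk} α^s_{jl}
- α^i_{sl} α^s_{jk}`. -/
noncomputable def curvature (S : GeomSystem 𝕜 N) (i j k l : Fin N) (u : Fin N → 𝕜) : 𝕜 :=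
  pd k (S.α i j l) u - pd l (S.α i j k) u
    + ∑ s, (S.α i s k u * S.α s j l u - S.α i s l u * S.α s j k u)

/-- The covariant derivative of the torsion for `∇_l V^i = ∂_l V^i + α^i_{jl} V^j`:
`(∇_l T)^i_{jk} = ∂_l T^i_{jk} + α^i_{sl} T^s_{jk} - α^s_{jl} T^i_{sk} - α^s_{kl} T^i_{js}`. -/
noncomputable def nablaTorsion (S : GeomSystem 𝕜 N) (i l j k : Fin N) (u : Fin N → 𝕜) : 𝕜 :=
  pd l (S.torsion i j k) u + ∑ s, (S.α i s l u * S.torsion s j k u
    - S.α s j l u * S.torsion i s k u - S.α s k l u * S.torsion i j s u)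

/-- `T(X, Y)` at the point `u`. -/
def torsionAt (S : GeomSystem 𝕜 N) (u X Y : Fin N → 𝕜) : Fin N → 𝕜 :=
  ev2 (fun i j k => S.torsion i j k u) X Y

/-- `δ(X, Y, Z) = T(X, T(Y, Z)) + R(X, Y, Z) - (∇_X T)(Y, Z)` at the point `u`. -/
noncomputable def delta (S : GeomSystem 𝕜 N) (u X Y Z : Fin N → 𝕜) : Fin N → 𝕜 :=
  torsionAt S u X (torsionAt S u Y Z) + ev3 (fun i j k l => curvature S i j k l u) X Y Z
    - ev3 (fun i l j k => nablaTorsion S i l j k u) X Y Z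

/-- `σ(X, Y, Z) = β(X, Y, Z) - δ(X, Y, Z) / 3 + δ(Z, X, Y) / 3` at the point `u`. -/
noncomputable def sigma (S : GeomSystem 𝕜 N) (u X Y Z : Fin N → 𝕜) : Fin N → 𝕜 :=
  ev3 (fun i j k l => S.β i j k l u) X Y Z - (1/3 : 𝕜) • delta S u X Y Z
    + (1/3 : 𝕜) • delta S u Z X Y

end Defs

variable {𝕜 : Type} [RCLike 𝕜]

lemma tor (i j k : Fin 2) : (exSys 𝕜).torsion i j k
    = if i = 0 ∧ j = 1 ∧ k = 0 then (fun u => -(u 1)⁻¹)
      else if i = 0 ∧ j = 0 ∧ k = 1 then (fun u => (u 1)⁻¹) else fun _ => 0 := by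
  funext u
  simp only [GeomSystem.torsion, exSys_α]
  fin_cases i <;> fin_cases j <;> fin_cases k <;> simp

lemma pd_inv' {u : Fin 2 → 𝕜} (hu : u ∈ Om) (j : Fin 2) :
    pd j (fun u => (u 1)⁻¹) u = if j = 1 then -((u 1)^2)⁻¹ else 0 := by
  have h := pd_inv hu j
  have h2 : pd j (fun u => (u 1)⁻¹) u = - pd j (fun u => -(u 1)⁻¹) u := by
    unfold pd lineDeriv
    rw [← deriv.fun_neg]
    simp only [neg_neg]
  rw [h2, h]
  split_ifs <;> simp

lemma exβ (i j k m : Fin 2) : (exSys 𝕜).β i j k m = fun _ => 0 := rfl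

/-- the base point -/
def u0 : Fin 2 → 𝕜 := ![0, 1]

lemma u0_mem : (u0 : Fin 2 → 𝕜) ∈ Om := by
  change (![0, 1] : Fin 2 → 𝕜) 1 ≠ 0
  simp

lemma sigma_u0 (X Y Z : Fin 2 → 𝕜) : sigma (exSys 𝕜) u0 X Y Z
    = ![(-1/3) * X 0 * Y 1 * Z 1 + (2/3) * X 1 * Y 0 * Z 1 - (1/3) * X 1 * Y 1 * Z 0, 0] := by
  have hu := u0_mem (𝕜 := 𝕜)
  have h1 : (u0 : Fin 2 → 𝕜) 1 = 1 := rfl
  funext i
  fin_cases i
  · simp [sigma, delta, ev3, ev2, torsionAt, curvature, nablaTorsion, exSys_α, tor, pd_const,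
      pd_inv hu, pd_inv' hu, Fin.sum_univ_two, h1, exβ]
    ring
  · simp [sigma, delta, ev3, ev2, torsionAt, curvature, nablaTorsion, exSys_α, tor, pd_const,
      Fin.sum_univ_two, exβ]

/-- **Theorem.** With the printed index order in `∇` and `R`, there is an integrable system `(∗)`
with two components and torsion different from zero at every point for which `σ` is not a triple
Jordan system. -/
theorem result : ∃ S : GeomSystem 𝕜 2, S.IsIntegrable ∧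
    (∀ u ∈ S.Ω, ∃ X Y, torsionAt S u X Y ≠ 0) ∧ ∃ u ∈ S.Ω, ¬ IsTripleJordan (sigma S u) := by
  refine ⟨exSys 𝕜, exSys_integrable, ?_, u0, u0_mem, ?_⟩
  · intro u hu
    have hu' : u 1 ≠ 0 := hu
    refine ⟨Pi.single 1 1, Pi.single 0 1, fun h => ?_⟩
    have h0 := congrFun h 0
    simp [torsionAt, ev2, tor, Fin.sum_univ_two] at h0
    exact hu' h0
  · rintro ⟨-, h⟩
    have h1 := congrFun (h ![0, 1] ![1, 0] ![0, 1] ![0, 1] ![0, 1]) 0
    simp only [sigma_u0] at h1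
    norm_num at h1

end Pool.Agent.Results.MP_7f6920_mp.PrintedOrder
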