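import Pool.Agent.H99.TJ.Bridge

open scoped ContDiff

/-! # Triple Jordan structure of `σ` for third-order systems with torsion

Convention. In `(∗)` the first lower index of `α^i_{jk}` is the index of differentiation: the
system is `u_t = ∇_x ∇_x u_x + T(u_x, ∇_x u_x) + β(u_x, u_x, u_x)` for
`(∇_Z V)^i = ∂_Z V^i + α^i_{lj} Z^l V^j`. This is the convention with which the facts listed in the
problem (`∇σ = 0` etc.) hold, and it is used here. -/

namespace Pool.Agent.Results.MP_7f6920_mp.TripleJordan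

open TopologicalSpace Pool.Agent.H99.TJ Pool.Agent.H99.TJ.Coord

variable {𝕜 : Type} [RCLike 𝕜] {N : ℕ}

/-- The curvature `R^i_{jkl} = ∂_k α^i_{lj} - ∂_l α^i_{kj} + α^i_{ks} α^s_{lj} - α^i_{ls} α^s_{kj}`,
so that `R^i_{jkl} X^j Y^k Z^l` is `([∇_Y, ∇_Z] - ∇_{[Y,Z]}) X`. -/
noncomputable def curvature (S : GeomSystem 𝕜 N) (i j k l : Fin N) (u : Fin N → 𝕜) : 𝕜 :=
  pd k (S.α i l j) u - pd l (S.α i k j) u
    + ∑ s, (S.α i k s u * S.α s l j u - S.α i l s u * S.α s k j u)

/-- The covariant derivative of the torsion, `(∇_l T)^i_{jk} = ∂_l T^i_{jk} + α^i_{ls} T^s_{jk}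
- α^s_{lj} T^i_{sk} - α^s_{lk} T^i_{js}`. -/
noncomputable def nablaTorsion (S : GeomSystem 𝕜 N) (i l j k : Fin N) (u : Fin N → 𝕜) : 𝕜 :=
  pd l (S.torsion i j k) u + ∑ s, (S.α i l s u * S.torsion s j k u
    - S.α s l j u * S.torsion i s k u - S.α s l k u * S.torsion i j s u)

/-- `T(X, Y)` at the point `u`. -/
def torsionAt (S : GeomSystem 𝕜 N) (u X Y : Fin N → 𝕜) : Fin N → 𝕜 :=
  ev2 (fun i j k => S.torsion i j k u) X Y

/-- `δ(X, Y, Z) = T(X, T(Y, Z)) + R(X, Y, Z) - (∇_X T)(Y, Z)` at the point `u`. -/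
noncomputable def delta (S : GeomSystem 𝕜 N) (u X Y Z : Fin N → 𝕜) : Fin N → 𝕜 :=
  torsionAt S u X (torsionAt S u Y Z) + ev3 (fun i j k l => curvature S i j k l u) X Y Z
    - ev3 (fun i l j k => nablaTorsion S i l j k u) X Y Z

/-- `σ(X, Y, Z) = β(X, Y, Z) - δ(X, Y, Z) / 3 + δ(Z, X, Y) / 3` at the point `u`. -/
noncomputable def sigma (S : GeomSystem 𝕜 N) (u X Y Z : Fin N → 𝕜) : Fin N → 𝕜 :=
  ev3 (fun i j k l => S.β i j k l u) X Y Z - (1/3 : 𝕜) • delta S u X Y Z
    + (1/3 : 𝕜) • delta S u Z X Y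

/-! ### Comparison with the coordinate free objects -/

lemma hm_ext {F : Type*} [NormedAddCommGroup F] [NormedSpace 𝕜 F] {f g : Hm 𝕜 (Fin N → 𝕜) F}
    (h : ∀ j, f (Pi.single j 1) = g (Pi.single j 1)) : f = g := by
  ext x
  have hx : x = ∑ j, x j • (Pi.single j (1:𝕜) : Fin N → 𝕜) := by
    funext i
    simp [Finset.sum_apply, Pi.single_apply]
  rw [hx, map_sum, map_sum]
  apply Finset.sum_congr rfl
  intro j _
  rw [map_smul, map_smul, h]

lemma ev2_left (a : Fin N → Fin N → Fin N → 𝕜) (j : Fin N) (y : Fin N → 𝕜) (i : Fin N) :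
    ev2 a (Pi.single j 1) y i = ∑ k, a i j k * y k := by
  simp [ev2, Pi.single_apply]

lemma ev2_right (a : Fin N → Fin N → Fin N → 𝕜) (k : Fin N) (x : Fin N → 𝕜) (i : Fin N) :
    ev2 a x (Pi.single k 1) i = ∑ j, a i j k * x j := by
  simp [ev2, Pi.single_apply]

lemma ev2_basis (a : Fin N → Fin N → Fin N → 𝕜) (j k : Fin N) (i : Fin N) :
    ev2 a (Pi.single j 1) (Pi.single k 1) i = a i j k := by
  simp [ev2, Pi.single_apply]

lemma ev3_basis (a : Fin N → Fin N → Fin N → Fin N → 𝕜) (j k l : Fin N) (i : Fin N) :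
    ev3 a (Pi.single j 1) (Pi.single k 1) (Pi.single l 1) i = a i j k l := by
  simp [ev3, Pi.single_apply]

lemma fd_basis (S : GeomSystem 𝕜 N) {u : Fin N → 𝕜} (hu : u ∈ S.Ω) (j k l i : Fin N) :
    fderiv 𝕜 (toSys S).α u (Pi.single j 1) (Pi.single k 1) (Pi.single l 1) i
      = pd j (S.α i k l) u := by
  rw [toSys_fderiv S hu]
  simp [Pi.single_apply]

lemma T_eq (S : GeomSystem 𝕜 N) (u X Y : Fin N → 𝕜) :
    (toSys S).T u X Y = torsionAt S u X Y := by
  rw [Conn.T_apply, toSys_α, toSys_α]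
  funext i
  simp only [Pi.sub_apply, ev2, torsionAt, GeomSystem.torsion, sub_mul, Finset.sum_sub_distrib]
  congr 1
  rw [Finset.sum_comm]
  apply Finset.sum_congr rfl; intro j _
  apply Finset.sum_congr rfl; intro k _
  ring

lemma R_eq (S : GeomSystem 𝕜 N) {u : Fin N → 𝕜} (hu : u ∈ S.Ω) (X Y Z : Fin N → 𝕜) :
    (toSys S).R u Y Z X = ev3 (fun i j k l => curvature S i j k l u) X Y Z := by
  have key : rot ((toSys S).R u) = tens3 (fun i j k l => curvature S i j k l u) := by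
    apply hm_ext; intro j
    apply hm_ext; intro k
    apply hm_ext; intro l
    rw [tens3_apply, rot_apply, Conn.R_apply]
    funext i
    rw [ev3_basis]
    simp only [Pi.sub_apply, Pi.add_apply, fd_basis S hu, toSys_α, ev2_left, Pi.single_apply,
      mul_ite, mul_one, mul_zero, Finset.sum_ite_eq', Finset.mem_univ, if_true]
    simp only [curvature, Finset.sum_sub_distrib]
    ring
  rw [← tens3_apply, ← key, rot_apply]

lemma nT_eq (S : GeomSystem 𝕜 N) {u : Fin N → 𝕜} (hu : u ∈ S.Ω) (X Y Z : Fin N → 𝕜) :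
    (toSys S).nab (toSys S).T u X Y Z = ev3 (fun i l j k => nablaTorsion S i l j k u) X Y Z := by
  have key : (toSys S).nab (toSys S).T u = tens3 (fun i l j k => nablaTorsion S i l j k u) := by
    apply hm_ext; intro l
    apply hm_ext; intro j
    apply hm_ext; intro k
    rw [tens3_apply, (toSys S).nabT_apply hu]
    funext i
    rw [ev3_basis]
    simp only [Pi.sub_apply, Pi.add_apply, fd_basis S hu, T_eq, torsionAt, toSys_α, ev2_left,
      ev2_right, Pi.single_apply, mul_ite, mul_one, mul_zero, Finset.sum_ite_eq', Finset.mem_univ,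
      if_true]
    have hd : pd l (S.torsion i j k) u = pd l (S.α i j k) u - pd l (S.α i k j) u := by
      have h1 : DifferentiableAt 𝕜 (S.α i j k) u :=
        ((S.α_smooth i j k).contDiffAt (S.isOpen.mem_nhds hu)).differentiableAt (by simp)
      have h2 : DifferentiableAt 𝕜 (S.α i k j) u :=
        ((S.α_smooth i k j).contDiffAt (S.isOpen.mem_nhds hu)).differentiableAt (by simp)
      have h3 : HasLineDerivAt 𝕜 (S.torsion i j k)
          (pd l (S.α i j k) u - pd l (S.α i k j) u) u (Pi.single l 1) := by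
        have a1 := (h1.hasFDerivAt.hasLineDerivAt (Pi.single l 1))
        have a2 := (h2.hasFDerivAt.hasLineDerivAt (Pi.single l 1))
        rw [pd_eq S.isOpen (S.α_smooth i j k) hu, pd_eq S.isOpen (S.α_smooth i k j) hu]
        exact a1.sub a2
      exact h3.lineDeriv
    simp only [nablaTorsion, hd, Finset.sum_sub_distrib]
    have e1 : ∑ s, S.torsion i s k u * S.α s l j u = ∑ s, S.α s l j u * S.torsion i s k u :=
      Finset.sum_congr rfl fun s _ => mul_comm _ _
    have e2 : ∑ s, S.torsion i j s u * S.α s l k u = ∑ s, S.α s l k u * S.torsion i j s u :=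
      Finset.sum_congr rfl fun s _ => mul_comm _ _
    rw [e1, e2]
  rw [← tens3_apply, ← key]

lemma delta_eq (S : GeomSystem 𝕜 N) {u : Fin N → 𝕜} (hu : u ∈ S.Ω) (X Y Z : Fin N → 𝕜) :
    (toSys S).dl u X Y Z = delta S u X Y Z := by
  rw [Sys.dl_apply, T_eq, T_eq, R_eq S hu, nT_eq S hu]
  rfl

lemma sigma_eq (S : GeomSystem 𝕜 N) {u : Fin N → 𝕜} (hu : u ∈ S.Ω) (X Y Z : Fin N → 𝕜) :
    (toSys S).sg u X Y Z = sigma S u X Y Z := by
  rw [Sys.sg_apply, delta_eq S hu, delta_eq S hu, toSys_β]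
  rfl

/-- **Theorem.** If a system `(∗)` (over `ℝ` or `ℂ`, on any open set of `𝕜^N`) has a symmetry of
some order `n ≥ 6`, in particular if it is integrable, then `σ(u)` is a triple Jordan system at
every point `u`. -/
theorem result (S : GeomSystem 𝕜 N) (hS : ∃ n, 6 ≤ n ∧ ∃ L, S.IsSymmetry n L) :
    ∀ u ∈ S.Ω, IsTripleJordan (sigma S u) := by
  obtain ⟨n, hn, L, hL⟩ := hS
  obtain ⟨LF, hLF⟩ := isSym_of S (by omega) hL
  intro u hu
  refine ⟨?_, ?_⟩
  · intro X Y Z
    rw [← sigma_eq S hu, ← sigma_eq S hu]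
    exact (toSys S).sg_symm hu X Y Z
  · intro X Y Z V W
    have h := (toSys S).jordan hn hLF hu X Y Z V W
    simp only [sigma_eq S hu] at h
    exact h

end Pool.Agent.Results.MP_7f6920_mp.TripleJordan
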